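import Pool.Agent.V11162.DH.Final

/-!
# Halving lines after the deletion of few points

Definitions (in `Pool/Agent/W296/HL3.lean`, namespace `Pool.Agent.W296.HL`):

* `Line a b c = {p | a * p.1 + b * p.2 = c}`,
* `GeneralPosition P`: no three distinct points of `P` on a common line,
* `IsBisector P L`: `L` is a line through two distinct points of `P` with exactly
  `|P| / 2 - 1` points of `P` on each open side.
-/

set_option autoImplicit false

open Finset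

namespace Pool.Agent.Results.MP_e17eac_co.FewDeletions

open Pool.Agent.W296.HL

open scoped Classical in
/-- Let `P` be a set of `n` points of the plane in general position.
1. For all `1 ≤ d ≤ n` one can delete at most `d` points of `P` so that the number of the remaining
   points is even and they have at most `270 n ^ (4 / 3) / d ^ (1 / 3)` bisectors.
2. For all real `δ ≤ 1` with `δ n ≥ 1` one can delete at most `δ n` points of `P` so that the number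
   of the remaining points is even and they have at most `400 δ ^ (- 1 / 3) n` bisectors. -/
theorem result : ∀ P : Finset (ℝ × ℝ), GeneralPosition P →
    (∀ d : ℕ, 1 ≤ d → d ≤ #P → ∃ D ⊆ P, #D ≤ d ∧ Even #(P \ D) ∧
      ({L | IsBisector (P \ D) L}.ncard : ℝ) ≤
        270 * (#P : ℝ) ^ (4 / 3 : ℝ) / (d : ℝ) ^ (1 / 3 : ℝ)) ∧
    (∀ δ : ℝ, δ ≤ 1 → 1 ≤ δ * #P → ∃ D ⊆ P, (#D : ℝ) ≤ δ * #P ∧ Even #(P \ D) ∧
      ({L | IsBisector (P \ D) L}.ncard : ℝ) ≤ 400 * δ ^ (-(1 / 3) : ℝ) * #P) := by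
  intro P hP
  refine ⟨fun d hd hdn => Pool.Agent.V11162.DH.main hP hd hdn, ?_⟩
  intro δ hδ h1
  have hn0 : (0 : ℝ) < #P := by
    rcases (Nat.cast_nonneg (α := ℝ) #P).eq_or_lt with h | h
    · rw [← h] at h1
      linarith
    · exact h
  have hδ0 : 0 < δ := by
    by_contra hcon
    push Not at hcon
    nlinarith
  set d := ⌊δ * #P⌋₊ with hd
  have hd1 : 1 ≤ d := Nat.le_floor (by exact_mod_cast h1)
  have hd2 : (d : ℝ) ≤ δ * #P := Nat.floor_le (by positivity)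
  have hd3 : d ≤ #P := by
    have : (d : ℝ) ≤ #P := by nlinarith
    exact_mod_cast this
  have hd4 : δ * #P ≤ 2 * d := by
    have h2 := Nat.lt_floor_add_one (δ * #P)
    have h3 : (1 : ℝ) ≤ d := by exact_mod_cast hd1
    rw [← hd] at h2
    linarith
  obtain ⟨D, hDP, hDc, hDe, hDk⟩ := Pool.Agent.V11162.DH.main hP hd1 hd3
  refine ⟨D, hDP, le_trans (by exact_mod_cast hDc) hd2, hDe, hDk.trans ?_⟩
  have hd0 : (0 : ℝ) < d := by exact_mod_cast hd1
  have hs0 : 0 < (d : ℝ) ^ (1 / 3 : ℝ) := Real.rpow_pos_of_pos hd0 _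
  rw [div_le_iff₀ hs0]
  -- `(δ n / 2) ^ (1/3) ≤ d ^ (1/3)`
  have h4 : (δ * #P / 2) ^ (1 / 3 : ℝ) ≤ (d : ℝ) ^ (1 / 3 : ℝ) :=
    Real.rpow_le_rpow (by positivity) (by linarith) (by norm_num)
  have h5 : (δ * #P / 2 : ℝ) ^ (1 / 3 : ℝ) =
      δ ^ (1 / 3 : ℝ) * (#P : ℝ) ^ (1 / 3 : ℝ) / 2 ^ (1 / 3 : ℝ) := by
    rw [Real.div_rpow (by positivity) (by norm_num), Real.mul_rpow hδ0.le hn0.le]
  have h6 : (2 : ℝ) ^ (1 / 3 : ℝ) ≤ 1.4 := by
    have h7 : ((2 : ℝ) ^ (1 / 3 : ℝ)) ^ 3 = 2 := by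
      rw [← Real.rpow_natCast, ← Real.rpow_mul (by norm_num)]
      norm_num
    by_contra hcon
    push Not at hcon
    have h8 : (1.4 : ℝ) ^ 3 < ((2 : ℝ) ^ (1 / 3 : ℝ)) ^ 3 :=
      pow_lt_pow_left₀ hcon (by norm_num) (by norm_num)
    rw [h7] at h8
    norm_num at h8
  have h2p : (0 : ℝ) < (2 : ℝ) ^ (1 / 3 : ℝ) := Real.rpow_pos_of_pos (by norm_num) _
  have h9 : δ ^ (-(1 / 3) : ℝ) * δ ^ (1 / 3 : ℝ) = 1 := by
    rw [← Real.rpow_add hδ0]
    norm_num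
  have h10 : (#P : ℝ) ^ (4 / 3 : ℝ) = #P * (#P : ℝ) ^ (1 / 3 : ℝ) := by
    rw [show (4 / 3 : ℝ) = 1 + 1 / 3 by norm_num, Real.rpow_add hn0, Real.rpow_one]
  set α := δ ^ (-(1 / 3) : ℝ) with hα
  set β := δ ^ (1 / 3 : ℝ) with hβ
  set γ := (#P : ℝ) ^ (1 / 3 : ℝ) with hγ
  have hα0 : 0 < α := Real.rpow_pos_of_pos hδ0 _
  have hγ0 : 0 < γ := Real.rpow_pos_of_pos hn0 _
  rw [h10]
  calc 270 * ((#P : ℝ) * γ) = 270 * #P * γ * (α * β) := by rw [h9]; ring
    _ = 270 * α * #P * (2 : ℝ) ^ (1 / 3 : ℝ) * (β * γ / (2 : ℝ) ^ (1 / 3 : ℝ)) := by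
        field_simp
    _ ≤ 270 * α * #P * (2 : ℝ) ^ (1 / 3 : ℝ) * (d : ℝ) ^ (1 / 3 : ℝ) := by
        apply mul_le_mul_of_nonneg_left _ (by positivity)
        rw [← h5]
        exact h4
    _ ≤ 270 * α * #P * 1.4 * (d : ℝ) ^ (1 / 3 : ℝ) := by
        apply mul_le_mul_of_nonneg_right _ hs0.le
        exact mul_le_mul_of_nonneg_left h6 (by positivity)
    _ ≤ 400 * α * #P * (d : ℝ) ^ (1 / 3 : ℝ) := by
        apply mul_le_mul_of_nonneg_right _ hs0.le
        nlinarith [mul_pos hα0 hn0]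

end Pool.Agent.Results.MP_e17eac_co.FewDeletions
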