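import Pool.Agent.V11122.Hv.Del

/-! Bisectors (halving lines) of a planar point set in general position after deleting each point
independently with probability `r` (the surviving points, with their own halving lines). -/

set_option autoImplicit false

namespace Pool.Agent.Results.MP_e17eac_co.RandomDeletions

open Finset KLev.Halving Pool.Agent.V11122.Hv Pool.Agent.Y344.KD

/-- The expected number of bisectors of the random subset of `P` in which every point of `P` is
kept independently with probability `1 - r` (deleted with probability `r`). -/
noncomputable def meanBisectors (P : Finset (ℝ × ℝ)) (r : ℝ) : ℝ :=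
  ∑ Q ∈ P.powerset, (1 - r) ^ Q.card * r ^ (P.card - Q.card) * ({L | IsBisector Q L}.ncard : ℝ)

theorem bis_empty : {L | IsBisector ∅ L} = ∅ := by
  ext L
  simp only [Set.mem_setOf_eq, Set.mem_empty_iff_false, iff_false]
  rintro ⟨a, b, c, -, -, ⟨p, hp, -⟩, -⟩
  exact absurd hp (Finset.notMem_empty p)

theorem transfer {n : ℕ} {f : Fin n → ℝ × ℝ} (hf : Function.Injective f) {P : Finset (ℝ × ℝ)}
    (hP : univ.image f = P) (hc : P.card = n) (r : ℝ) :
    ∑ D : Finset (Fin n), wt r D * bis f D = meanBisectors P r := by
  classical
  unfold meanBisectors
  have hcard : ∀ D : Finset (Fin n), (Dᶜ.image f).card = n - D.card := by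
    intro D
    rw [card_image_of_injective _ hf, card_compl, Fintype.card_fin]
  refine Finset.sum_bij (fun D _ => Dᶜ.image f) ?_ ?_ ?_ ?_
  · intro D _
    rw [mem_powerset, ← hP]
    exact image_subset_image (subset_univ _)
  · intro D _ D' _ h
    have := Finset.image_injective hf h
    simpa using this
  · intro Q hQ
    rw [mem_powerset] at hQ
    refine ⟨univ.filter (fun i => f i ∉ Q), mem_univ _, ?_⟩
    ext x
    simp only [mem_image, mem_compl, mem_filter, mem_univ, true_and, not_not]
    constructor
    · rintro ⟨i, hi, rfl⟩
      exact hi
    · intro hx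
      have := hQ hx
      rw [← hP] at this
      obtain ⟨i, -, rfl⟩ := mem_image.mp this
      exact ⟨i, hx, rfl⟩
  · intro D _
    have hD : D.card ≤ n := by simpa using card_le_univ D
    rw [hcard, hc, Nat.sub_sub_self hD]
    unfold wt bis
    ring

/-- There is a constant `C` such that for every finite set `P` of points of the plane in general
position and every `r ∈ (0, 1/2]` the random subset of `P` in which every point is deleted
independently with probability `r` has on average at most `C |P|^(7/6) r^(-1/6)` bisectors. -/
theorem result : ∃ C : ℝ, 0 < C ∧ ∀ P : Finset (ℝ × ℝ), GeneralPosition P →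
    ∀ r : ℝ, 0 < r → r ≤ 1 / 2 →
      meanBisectors P r ≤ C * ((P.card : ℝ) ^ (7 / 6 : ℝ) * r ^ (-(1 / 6) : ℝ)) := by
  classical
  refine ⟨241, by norm_num, ?_⟩
  intro P hG r hr hr1
  rcases Nat.eq_zero_or_pos P.card with h0 | hn
  · rw [card_eq_zero] at h0
    subst h0
    unfold meanBisectors
    rw [powerset_empty, sum_singleton, bis_empty]
    simp
  · set n := P.card with hnP
    let f : Fin n → ℝ × ℝ := fun i => (P.equivFin.symm i : ℝ × ℝ)
    have hf : Function.Injective f := by
      intro i j h
      exact P.equivFin.symm.injective (Subtype.ext h)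
    have hP : univ.image f = P := by
      ext x
      simp only [mem_image, mem_univ, true_and]
      constructor
      · rintro ⟨i, rfl⟩
        exact (P.equivFin.symm i).2
      · intro hx
        exact ⟨P.equivFin ⟨x, hx⟩, by simp [f]⟩
    have hG' : GeneralPosition (univ.image f) := by rw [hP]; exact hG
    rw [← transfer hf hP hnP.symm r]
    exact mean_bis hf hG' hn hr hr1

end Pool.Agent.Results.MP_e17eac_co.RandomDeletions
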