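import Pool.Agent.V11162.Halv

/-!
# Halving lines of independent random points of the plane

For `n` independent random points of the plane with an arbitrary common law that vanishes on all
lines the expected number of halving lines is at most `C n ^ (7 / 6)`, with an absolute constant
`C`.  More generally, the expected number of the lines through two of the points with exactly `k`
of the points on one side is at most `C n (min (k, n - 2 - k) + 1) ^ (1 / 6)`.
-/

set_option autoImplicit false

namespace Pool.Agent.Results.MP_e17eac_co.RandomPoints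

open MeasureTheory KLev.Halving Finset
open scoped ENNReal

open scoped Classical in
/-- the set of the points `P i` -/
noncomputable def points {n : ℕ} (P : Fin n → ℝ × ℝ) : Finset (ℝ × ℝ) := univ.image P

/-- the number of the bisectors of the set of the points `P i` -/
noncomputable def halving {n : ℕ} (P : Fin n → ℝ × ℝ) : ℝ≥0∞ :=
  ({L | IsBisector (points P) L}.encard : ℝ≥0∞)

open scoped Classical in
/-- `L` is a line through two points of `P`, and one of the two open half-planes bounded by `L`
contains exactly `k` points of `P` -/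
def IsKLine (P : Finset (ℝ × ℝ)) (k : ℕ) (L : Set (ℝ × ℝ)) : Prop :=
  ∃ a b c : ℝ, (a ≠ 0 ∨ b ≠ 0) ∧ L = Line a b c ∧
    (∃ p ∈ P, ∃ q ∈ P, p ≠ q ∧ p ∈ L ∧ q ∈ L) ∧
    (P.filter (fun p => a * p.1 + b * p.2 < c)).card = k

/-- the number of the lines through two of the points with exactly `k` points on one side -/
noncomputable def kLines (k : ℕ) {n : ℕ} (P : Fin n → ℝ × ℝ) : ℝ≥0∞ :=
  ({L | IsKLine (points P) k L}.encard : ℝ≥0∞)

open Pool.Agent.H189R2.Iid Pool.Agent.H189R2.Lev Pool.Agent.V11162.Halv
open Pool.Agent.Results.MP_a08d0a_co.IidLevel (sl ic crossings cross_bound simple_of_GP)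

variable {n : ℕ}

theorem measurable_pairs (k : ℕ) :
    Measurable (fun P : Fin n → ℝ × ℝ => ((Pairs (sl P) (ic P) k).ncard : ℝ≥0∞)) := by
  classical
  have m1 : ∀ i : Fin n, Measurable (fun P : Fin n → ℝ × ℝ => P i) := fun i => measurable_pi_apply i
  have hcrm : ∀ i j : Fin n, Measurable (fun P : Fin n → ℝ × ℝ => cr (sl P) (ic P) i j) := by
    intro i j
    unfold cr sl ic
    exact ((m1 j).snd.sub (m1 i).snd).div ((m1 i).fst.sub (m1 j).fst)
  have hhtm : ∀ i j l : Fin n, Measurable
      (fun P : Fin n → ℝ × ℝ => ht (sl P) (ic P) l (cr (sl P) (ic P) i j)) := by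
    intro i j l
    unfold ht
    exact ((m1 l).fst.mul (hcrm i j)).add (m1 l).snd
  have hncard : ∀ {ι : Type} [Fintype ι] (s : (Fin n → ℝ × ℝ) → ι → Prop),
      (∀ l, MeasurableSet {P | s P l}) → Measurable (fun P => {l | s P l}.ncard) := by
    intro ι _ s hs
    have h : (fun P => {l | s P l}.ncard) = fun P => ∑ l, if s P l then 1 else 0 := by
      ext P
      have : {l | s P l} = ((univ.filter (fun l => s P l) : Finset ι) : Set ι) := by
        ext l; simp
      rw [this, Set.ncard_coe_finset, card_filter]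
    rw [h]
    exact Finset.measurable_sum _ (fun l _ =>
      Measurable.ite (hs l) measurable_const measurable_const)
  have h := hncard (fun (P : Fin n → ℝ × ℝ) (q : Fin n × Fin n) => q.1 < q.2 ∧
    sl P q.1 ≠ sl P q.2 ∧ ({l | ht (sl P) (ic P) l (cr (sl P) (ic P) q.1 q.2) <
      ht (sl P) (ic P) q.1 (cr (sl P) (ic P) q.1 q.2)}.ncard = k ∨
      {l | ht (sl P) (ic P) q.1 (cr (sl P) (ic P) q.1 q.2) <
      ht (sl P) (ic P) l (cr (sl P) (ic P) q.1 q.2)}.ncard = k))
    (fun q => (MeasurableSet.const _).inter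
      ((measurableSet_eq_fun (m1 q.1).fst (m1 q.2).fst).compl.inter
        (((hncard (fun (P : Fin n → ℝ × ℝ) (l : Fin n) =>
          ht (sl P) (ic P) l (cr (sl P) (ic P) q.1 q.2) <
          ht (sl P) (ic P) q.1 (cr (sl P) (ic P) q.1 q.2))
          (fun l => measurableSet_lt (hhtm q.1 q.2 l) (hhtm q.1 q.2 q.1)))
          (measurableSet_singleton k)).union
        ((hncard (fun (P : Fin n → ℝ × ℝ) (l : Fin n) =>
          ht (sl P) (ic P) q.1 (cr (sl P) (ic P) q.1 q.2) <
          ht (sl P) (ic P) l (cr (sl P) (ic P) q.1 q.2))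
          (fun l => measurableSet_lt (hhtm q.1 q.2 q.1) (hhtm q.1 q.2 l)))
          (measurableSet_singleton k)))))
  exact (measurable_of_countable (fun c : ℕ => (c : ℝ≥0∞))).comp h

theorem sl_inj {P : Fin n → ℝ × ℝ} (hP : GP P) : Function.Injective (sl P) :=
  fun i j h => hP.1 i j h

theorem klines_ae {μ : Measure (ℝ × ℝ)} [IsProbabilityMeasure μ] (hμ : LN μ) (k : ℕ) :
    ∀ᵐ P ∂Measure.pi (fun _ : Fin n => μ),
      kLines k P = ((Pairs (sl P) (ic P) k).ncard : ℝ≥0∞) := by
  filter_upwards [ae_GP hμ n] with P hP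
  have h := encard_klines (sl_inj hP) (simple_of_GP hP) k
  change (({L | KLine (pts P) k L}.encard : ℕ∞) : ℝ≥0∞) = _
  have e : (fun l => (sl P l, ic P l)) = P := by
    funext l; rfl
  rw [e] at h
  rw [h]
  rfl

theorem klines_bound {μ : Measure (ℝ × ℝ)} [IsProbabilityMeasure μ] (hμ : LN μ) (k : ℕ) :
    ∫⁻ P, kLines k P ∂Measure.pi (fun _ : Fin n => μ) ≤
      ENNReal.ofReal (2616 * SS * n * ((min k (n - 2 - k) : ℕ) + 1 : ℝ) ^ (1 / 6 : ℝ)) := by
  rw [lintegral_congr_ae (klines_ae hμ k)]
  by_cases hk : k + 2 ≤ n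
  · have h1 := cross_bound (n := n) hμ k
    have h2 := cross_bound (n := n) hμ (n - 2 - k)
    have e : min (n - 2 - k) (n - 2 - (n - 2 - k)) = min k (n - 2 - k) := by omega
    rw [e] at h2
    calc ∫⁻ P, ((Pairs (sl P) (ic P) k).ncard : ℝ≥0∞) ∂Measure.pi (fun _ : Fin n => μ)
        ≤ ∫⁻ P, (((crossings (sl P) (ic P) k).ncard : ℝ≥0∞) +
          ((crossings (sl P) (ic P) (n - 2 - k)).ncard : ℝ≥0∞))
            ∂Measure.pi (fun _ : Fin n => μ) := by
          apply lintegral_mono_ae
          filter_upwards [ae_GP hμ n] with P hP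
          exact_mod_cast pairs_le (simple_of_GP hP) hk
      _ = _ := lintegral_add_left
          (Pool.Agent.Results.MP_a08d0a_co.IidLevel.measurable_crossings k) _
      _ ≤ _ := add_le_add h1 h2
      _ = _ := by
          have hSS := SS_ge
          have h0 : 0 ≤ 1308 * SS * n * ((min k (n - 2 - k) : ℕ) + 1 : ℝ) ^ (1 / 6 : ℝ) := by
            positivity
          rw [← ENNReal.ofReal_add h0 h0]
          congr 1
          ring
  · have : ∀ᵐ P ∂Measure.pi (fun _ : Fin n => μ),
        ((Pairs (sl P) (ic P) k).ncard : ℝ≥0∞) = 0 := by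
      filter_upwards [ae_GP hμ n] with P hP
      rw [pairs_empty (simple_of_GP hP) (by omega)]
      simp
    rw [lintegral_congr_ae this, lintegral_zero]
    exact zero_le

/-- **Halving lines of random points.** There is `C` such that for every law `μ` on the plane that
vanishes on lines and every `n`: `n` independent random points with the law `μ` are almost surely
distinct and in general position; the expected number of their halving lines is at most
`C n ^ (7 / 6)`; and for every `k` the expected number of the lines through two of them with exactly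
`k` of them on one side is at most `C n (min (k, n - 2 - k) + 1) ^ (1 / 6)`. -/
theorem result : ∃ C : ℝ, 0 < C ∧ ∀ (μ : Measure (ℝ × ℝ)) [IsProbabilityMeasure μ],
    (∀ a b c : ℝ, (a ≠ 0 ∨ b ≠ 0) → μ (Line a b c) = 0) → ∀ n : ℕ,
    (∀ᵐ P ∂Measure.pi (fun _ : Fin n => μ), (points P).card = n ∧ GeneralPosition (points P)) ∧
    (AEMeasurable (fun P => halving P) (Measure.pi (fun _ : Fin n => μ)) ∧
      ∫⁻ P, halving P ∂Measure.pi (fun _ : Fin n => μ) ≤
        ENNReal.ofReal (C * (n : ℝ) ^ (7 / 6 : ℝ))) ∧
    ∀ k : ℕ, AEMeasurable (fun P => kLines k P) (Measure.pi (fun _ : Fin n => μ)) ∧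
      ∫⁻ P, kLines k P ∂Measure.pi (fun _ : Fin n => μ) ≤
        ENNReal.ofReal (C * n * ((min k (n - 2 - k) : ℕ) + 1 : ℝ) ^ (1 / 6 : ℝ)) := by
  have hSS := SS_ge
  refine ⟨2616 * SS, by positivity, ?_⟩
  intro μ _ hμ' n
  have hμ : LN μ := hμ'
  have hGP := ae_GP hμ n
  have hkm : ∀ k : ℕ, AEMeasurable (fun P => kLines k P) (Measure.pi (fun _ : Fin n => μ)) :=
    fun k => ⟨_, measurable_pairs k, klines_ae hμ k⟩
  refine ⟨?_, ?_, fun k => ⟨hkm k, klines_bound hμ k⟩⟩
  · filter_upwards [hGP] with P hP
    exact ⟨card_pts (B := ic P) (sl_inj hP),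
      general_position (sl_inj hP) (simple_of_GP hP)⟩
  · by_cases hn : ∃ m, n = 2 * m + 2
    · obtain ⟨m, hm⟩ := hn
      have hae : ∀ᵐ P ∂Measure.pi (fun _ : Fin n => μ), halving P = kLines m P := by
        filter_upwards [hGP] with P hP
        have := bisectors_even (sl_inj hP) (simple_of_GP hP) hm
        change (({L | IsBisector (pts P) L}.encard : ℕ∞) : ℝ≥0∞) =
          (({L | KLine (pts P) m L}.encard : ℕ∞) : ℝ≥0∞)
        have e : (fun l => (sl P l, ic P l)) = P := by
          funext l; rfl
        rw [e] at this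
        rw [this]
      refine ⟨(hkm m).congr (hae.mono fun _ h => h.symm), ?_⟩
      rw [lintegral_congr_ae hae]
      refine (klines_bound hμ m).trans (ENNReal.ofReal_le_ofReal ?_)
      have e1 : min m (n - 2 - m) = m := by omega
      rw [e1]
      have hn0 : (1 : ℝ) ≤ n := by
        have : 1 ≤ n := by omega
        exact_mod_cast this
      have h2 : ((m : ℝ) + 1) ^ (1 / 6 : ℝ) ≤ (n : ℝ) ^ (1 / 6 : ℝ) := by
        apply Real.rpow_le_rpow (by positivity) _ (by norm_num)
        have : m + 1 ≤ n := by omega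
        exact_mod_cast this
      have h3 : (n : ℝ) ^ (7 / 6 : ℝ) = n * (n : ℝ) ^ (1 / 6 : ℝ) := by
        rw [show (7 / 6 : ℝ) = 1 + 1 / 6 by norm_num, Real.rpow_add (by linarith), Real.rpow_one]
      rw [h3]
      calc 2616 * SS * n * ((m : ℝ) + 1) ^ (1 / 6 : ℝ)
          ≤ 2616 * SS * n * (n : ℝ) ^ (1 / 6 : ℝ) := by
            apply mul_le_mul_of_nonneg_left h2 (by positivity)
        _ = _ := by ring
    · have hae : ∀ᵐ P ∂Measure.pi (fun _ : Fin n => μ), halving P = 0 := by
        filter_upwards [hGP] with P hP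
        have : {L | IsBisector (pts P) L} = ∅ := by
          by_cases h0 : Even n
          · -- then `n = 0`
            have hn0 : n = 0 := by
              obtain ⟨r, hr⟩ := h0
              by_contra hne
              exact hn ⟨r - 1, by omega⟩
            subst hn0
            rw [Set.eq_empty_iff_forall_notMem]
            rintro L ⟨u, v, w, huv, hL, ⟨p, hp, -⟩, -⟩
            unfold pts at hp
            rw [Finset.mem_image] at hp
            obtain ⟨i, -⟩ := hp
            exact i.elim0
          · exact bisectors_odd (sl_inj hP) (simple_of_GP hP) h0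
        change (({L | IsBisector (pts P) L}.encard : ℕ∞) : ℝ≥0∞) = 0
        rw [this]
        simp
      refine ⟨aemeasurable_const.congr (hae.mono fun _ h => h.symm), ?_⟩
      rw [lintegral_congr_ae hae, lintegral_zero]
      exact zero_le

end Pool.Agent.Results.MP_e17eac_co.RandomPoints
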