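import Pool.Agent.V11162.Halv
import Pool.Agent.Results.MP_a08d0a_co.SmoothedLevel

/-!
# Smoothed analysis of the number of halving lines

`n` points with arbitrary distinct abscissae and independent random ordinates; the law of each
ordinate lives on `[-M, M]` and gives every interval of length `h` at most `D h`.  The expected
number of halving lines is at most `8 D M n`.
-/

set_option autoImplicit false

namespace Pool.Agent.Results.MP_e17eac_co.SmoothedPoints

open MeasureTheory KLev.Halving Finset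
open scoped ENNReal

open scoped Classical in
/-- the set of the points `(x i, y i)` -/
noncomputable def points {n : ℕ} (x y : Fin n → ℝ) : Finset (ℝ × ℝ) :=
  univ.image fun i => (x i, y i)

/-- the number of the bisectors of the set of the points `(x i, y i)` -/
noncomputable def halving {n : ℕ} (x y : Fin n → ℝ) : ℝ≥0∞ :=
  ({L | IsBisector (points x y) L}.encard : ℝ≥0∞)

open scoped Classical in
/-- `L` is a line through two points of `P`, and one of the two open half-planes bounded by `L`
contains exactly `k` points of `P` -/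
def IsKLine (P : Finset (ℝ × ℝ)) (k : ℕ) (L : Set (ℝ × ℝ)) : Prop :=
  ∃ a b c : ℝ, (a ≠ 0 ∨ b ≠ 0) ∧ L = Line a b c ∧
    (∃ p ∈ P, ∃ q ∈ P, p ≠ q ∧ p ∈ L ∧ q ∈ L) ∧
    (P.filter (fun p => a * p.1 + b * p.2 < c)).card = k

/-- the number of the lines through two of the points with exactly `k` points on one side -/
noncomputable def kLines (k : ℕ) {n : ℕ} (x y : Fin n → ℝ) : ℝ≥0∞ :=
  ({L | IsKLine (points x y) k L}.encard : ℝ≥0∞)

open Pool.Agent.H189R2.Lev Pool.Agent.V11162.Halv
open Pool.Agent.Results.MP_a08d0a_co.SmoothedLevel (measurable_ncard measurable_cr measurable_ht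
  measurableSet_below measurable_crossings)
open Pool.Agent.Results.MP_a08d0a_co.IidLevel (crossings Simple)

variable {n : ℕ}

theorem measurable_pairs (x : Fin n → ℝ) (k : ℕ) :
    Measurable (fun y : Fin n → ℝ => ((Pairs x y k).ncard : ℝ≥0∞)) := by
  have h := measurable_ncard (fun (B : Fin n → ℝ) (q : Fin n × Fin n) => q.1 < q.2 ∧
    x q.1 ≠ x q.2 ∧ ({l | ht x B l (cr x B q.1 q.2) < ht x B q.1 (cr x B q.1 q.2)}.ncard = k ∨
      {l | ht x B q.1 (cr x B q.1 q.2) < ht x B l (cr x B q.1 q.2)}.ncard = k))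
    (fun q => (MeasurableSet.const _).inter
      ((MeasurableSet.const _).inter ((measurableSet_below x k q.1 q.2).union
        ((measurable_ncard (fun (B : Fin n → ℝ) l =>
          ht x B q.1 (cr x B q.1 q.2) < ht x B l (cr x B q.1 q.2))
          (fun l => measurableSet_lt (measurable_ht x q.1 q.2 q.1) (measurable_ht x q.1 q.2 l)))
          (measurableSet_singleton k)))))
  exact (measurable_of_countable (fun c : ℕ => (c : ℝ≥0∞))).comp h

section

variable {ν : Fin n → Measure ℝ} [∀ i, IsProbabilityMeasure (ν i)] {D M : ℝ}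

theorem simple_ae (hν : ∀ i, ∀ s t : ℝ, s ≤ t → ν i (Set.Icc s t) ≤ ENNReal.ofReal (D * (t - s)))
    (x : Fin n → ℝ) : ∀ᵐ y ∂Measure.pi ν, Simple x y :=
  Pool.Agent.Results.MP_a08d0a_co.SmoothedLevel.ae_simple hν x

theorem cross_le (hν : ∀ i, ∀ s t : ℝ, s ≤ t → ν i (Set.Icc s t) ≤ ENNReal.ofReal (D * (t - s)))
    (hM : ∀ i, ∀ᵐ b ∂ν i, |b| ≤ M) (x : Fin n → ℝ) (k : ℕ) :
    ∫⁻ y, ((crossings x y k).ncard : ℝ≥0∞) ∂Measure.pi ν ≤ ENNReal.ofReal (8 * D * M * n) :=
  (Pool.Agent.Results.MP_a08d0a_co.SmoothedLevel.result n x ν D M hν hM).2.1 k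

theorem meas_cross (x : Fin n → ℝ) (k : ℕ) :
    Measurable (fun y : Fin n → ℝ => ((crossings x y k).ncard : ℝ≥0∞)) :=
  measurable_crossings x k

theorem klines_ae (hν : ∀ i, ∀ s t : ℝ, s ≤ t → ν i (Set.Icc s t) ≤ ENNReal.ofReal (D * (t - s)))
    {x : Fin n → ℝ} (hx : Function.Injective x) (k : ℕ) :
    ∀ᵐ y ∂Measure.pi ν, kLines k x y = ((Pairs x y k).ncard : ℝ≥0∞) := by
  filter_upwards [simple_ae hν x] with y hy
  have h := encard_klines hx hy k
  change (({L | KLine (pts fun l => (x l, y l)) k L}.encard : ℕ∞) : ℝ≥0∞) = _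
  rw [h]
  rfl

/-- if there is a point at all, `D * M` is positive -/
theorem DM_nonneg
    (hν : ∀ i, ∀ s t : ℝ, s ≤ t → ν i (Set.Icc s t) ≤ ENNReal.ofReal (D * (t - s)))
    (hM : ∀ i, ∀ᵐ b ∂ν i, |b| ≤ M) (i : Fin n) : 0 ≤ D * M := by
  have h1 : (∀ᵐ b ∂ν i, b ∈ Set.Icc (-M) M) := by
    filter_upwards [hM i] with b hb
    exact abs_le.mp hb
  have h2 := (prob_compl_eq_zero_iff (μ := ν i) (s := Set.Icc (-M) M) measurableSet_Icc).mp h1
  have hM0 : -M ≤ M := by
    by_contra hcon
    rw [Set.Icc_eq_empty hcon] at h2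
    simp at h2
  have h3 := hν i (-M) M hM0
  rw [h2] at h3
  by_contra hcon
  push Not at hcon
  rw [ENNReal.ofReal_of_nonpos (by nlinarith)] at h3
  exact absurd h3 (by norm_num)

theorem klines_bound
    (hν : ∀ i, ∀ s t : ℝ, s ≤ t → ν i (Set.Icc s t) ≤ ENNReal.ofReal (D * (t - s)))
    (hM : ∀ i, ∀ᵐ b ∂ν i, |b| ≤ M) {x : Fin n → ℝ} (hx : Function.Injective x) (k : ℕ) :
    ∫⁻ y, kLines k x y ∂Measure.pi ν ≤ ENNReal.ofReal (16 * D * M * n) := by
  rw [lintegral_congr_ae (klines_ae hν hx k)]
  by_cases hk : k + 2 ≤ n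
  · have hDM : 0 ≤ D * M := DM_nonneg hν hM ⟨0, by omega⟩
    calc ∫⁻ y, ((Pairs x y k).ncard : ℝ≥0∞) ∂Measure.pi ν
        ≤ ∫⁻ y, (((crossings x y k).ncard : ℝ≥0∞) +
          ((crossings x y (n - 2 - k)).ncard : ℝ≥0∞)) ∂Measure.pi ν := by
          apply lintegral_mono_ae
          filter_upwards [simple_ae hν x] with y hy
          exact_mod_cast pairs_le hy hk
      _ = _ := lintegral_add_left (meas_cross x k) _
      _ ≤ _ := add_le_add (cross_le hν hM x k) (cross_le hν hM x (n - 2 - k))
      _ = _ := by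
          have h0 : 0 ≤ 8 * D * M * n := by
            have := mul_nonneg hDM (Nat.cast_nonneg (α := ℝ) n)
            nlinarith
          rw [← ENNReal.ofReal_add h0 h0]
          congr 1
          ring
  · have : ∀ᵐ y ∂Measure.pi ν, ((Pairs x y k).ncard : ℝ≥0∞) = 0 := by
      filter_upwards [simple_ae hν x] with y hy
      rw [pairs_empty hy (by omega)]
      simp
    rw [lintegral_congr_ae this, lintegral_zero]
    exact zero_le

theorem half_bound
    (hν : ∀ i, ∀ s t : ℝ, s ≤ t → ν i (Set.Icc s t) ≤ ENNReal.ofReal (D * (t - s)))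
    (hM : ∀ i, ∀ᵐ b ∂ν i, |b| ≤ M) {x : Fin n → ℝ} (hx : Function.Injective x) {m : ℕ}
    (hm : 2 * m + 2 = n) :
    ∫⁻ y, kLines m x y ∂Measure.pi ν ≤ ENNReal.ofReal (8 * D * M * n) := by
  rw [lintegral_congr_ae (klines_ae hν hx m)]
  refine le_trans ?_ (cross_le hν hM x m)
  apply lintegral_mono_ae
  filter_upwards [simple_ae hν x] with y hy
  exact_mod_cast pairs_le_half hy hm

end

/-- **Smoothed number of halving lines.** Let the abscissae `x i` of `n` points be distinct and let
the ordinates be independent random variables with the laws `ν i`, where `ν i` gives measure at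
most `D h` to every interval of length `h` and lives on `[-M, M]`.  The `n` points are almost surely
distinct and in general position, the expected number of their halving lines is at most `8 D M n`,
and for every `k` the expected number of the lines through two of them with exactly `k` of them on
one side is at most `16 D M n`. -/
theorem result (n : ℕ) (x : Fin n → ℝ) (hx : Function.Injective x) (ν : Fin n → Measure ℝ)
    [∀ i, IsProbabilityMeasure (ν i)] (D M : ℝ)
    (hν : ∀ i, ∀ s t : ℝ, s ≤ t → ν i (Set.Icc s t) ≤ ENNReal.ofReal (D * (t - s)))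
    (hM : ∀ i, ∀ᵐ b ∂ν i, |b| ≤ M) :
    (∀ᵐ y ∂Measure.pi ν, (points x y).card = n ∧ GeneralPosition (points x y)) ∧
    (AEMeasurable (fun y => halving x y) (Measure.pi ν) ∧
      ∫⁻ y, halving x y ∂Measure.pi ν ≤ ENNReal.ofReal (8 * D * M * n)) ∧
    ∀ k : ℕ, AEMeasurable (fun y => kLines k x y) (Measure.pi ν) ∧
      ∫⁻ y, kLines k x y ∂Measure.pi ν ≤ ENNReal.ofReal (16 * D * M * n) := by
  have hS := simple_ae hν x
  have hkm : ∀ k : ℕ, AEMeasurable (fun y => kLines k x y) (Measure.pi ν) :=
    fun k => ⟨_, measurable_pairs x k, klines_ae hν hx k⟩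
  refine ⟨?_, ?_, fun k => ⟨hkm k, klines_bound hν hM hx k⟩⟩
  · filter_upwards [hS] with y hy
    exact ⟨card_pts (B := y) hx, general_position hx hy⟩
  · by_cases hn : ∃ m, n = 2 * m + 2
    · obtain ⟨m, hm⟩ := hn
      have hae : ∀ᵐ y ∂Measure.pi ν, halving x y = kLines m x y := by
        filter_upwards [hS] with y hy
        have := bisectors_even hx hy hm
        change (({L | IsBisector (pts fun l => (x l, y l)) L}.encard : ℕ∞) : ℝ≥0∞) =
          (({L | KLine (pts fun l => (x l, y l)) m L}.encard : ℕ∞) : ℝ≥0∞)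
        rw [this]
      refine ⟨(hkm m).congr (hae.mono fun _ h => h.symm), ?_⟩
      rw [lintegral_congr_ae hae]
      exact half_bound hν hM hx hm.symm
    · have hae : ∀ᵐ y ∂Measure.pi ν, halving x y = 0 := by
        filter_upwards [hS] with y hy
        have : {L | IsBisector (pts fun l => (x l, y l)) L} = ∅ := by
          by_cases h0 : Even n
          · -- then `n = 0`
            have hn0 : n = 0 := by
              obtain ⟨r, hr⟩ := h0
              by_contra hne
              exact hn ⟨r - 1, by omega⟩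
            subst hn0
            rw [Set.eq_empty_iff_forall_notMem]
            rintro L ⟨u, v, w, huv, hL, ⟨p, hp, -⟩, -⟩
            unfold pts at hp
            rw [Finset.mem_image] at hp
            obtain ⟨i, -⟩ := hp
            exact i.elim0
          · exact bisectors_odd hx hy h0
        change (({L | IsBisector (pts fun l => (x l, y l)) L}.encard : ℕ∞) : ℝ≥0∞) = 0
        rw [this]
        simp
      refine ⟨aemeasurable_const.congr (hae.mono fun _ h => h.symm), ?_⟩
      rw [lintegral_congr_ae hae, lintegral_zero]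
      exact zero_le

end Pool.Agent.Results.MP_e17eac_co.SmoothedPoints
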